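import Mathlib
import Pool.Agent.Helper854_Q3.Geo
import Pool.Agent.Helper854_Q3.Pair

/-!
# The maximal ball multiplier in space on functions with convex superlevel sets

For `f ∈ L²(ℝ³)` with Fourier transform `G` let `S_R f(x) = ∫_{|ξ| ≤ R} G(ξ) exp (2 π i x·ξ) dξ`. If
for each of the four numbers `θ = 1, i, -1, -i` and each `t > 0` the set `K = {Re (θ f) > t}` is, up
to a null set, a union of at most `N` bounded convex sets, then
`‖sup_{R > 0} |S_R f|‖₂² ≤ C(N) ‖f‖₂²`. Some of the sets `K`, or all, may instead be tame: up to a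
null set `1_K` is a combination, with coefficients in `[-1, 1]`, of at most `N` indicator functions
of measurable sets which meet every line in at most `N` intervals and lie in boxes of volume at most
`N |K|`.

Proof. Let `A` be a set which meets every line in at most `N` intervals and lies in a box with
centre `c` and half sides `d₁ ≤ d₂ ≤ d₃`, and let `x₁, x₂, x₃` be the coordinates of `x - c` along
the sides. The kernel of `S_R` is `g_R(|y|) = - D_R'(|y|) / (2 π |y|)`, where
`D_R(r) = sin (2 π R r) / (π r)` is the kernel of the line. Write `V` for `|S_R 1_A(x)|`. All bounds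
are uniform in `R`, and `C` stands for constants.
(1) The integrals of `r² g_R(r)` over intervals are at most `1`; so `V ≤ C N`.
(2) The integrals of `r g_R` over the parts of a line which issue from the foot of the perpendicular
from `x` are differences of values of `D_R / (2 π)`. Integration in polar coordinates over the
planes parallel to the two longer sides gives `V ≤ C N d₁ / |x₁|` if `|x₁| ≥ 2 d₁`.
(3) By the second mean value theorem the integral of `g_R` over a segment all of whose points `y`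
satisfy `(y - x)·e ≥ α`, `|y - x| ≥ ρ`, `e` being the direction of the segment, is at most
`C / (α ρ)`. Integration over the lines parallel to the longest side gives
`V ≤ C N d₁ d₂ / (|x₃| max (d₁ + |x₁|, d₂ + |x₂|))` if `|x₃| ≥ 2 d₃`.
(4) Let `t² = x₁² + x₂²` and `t ≥ 8 d₂`. Polar coordinates in the planes orthogonal to the longest
side for the part of `A` with `|(y - x)₃| ≤ s₀`, and (3) for the rest, with `s₀² = t d₂`, give
`V ≤ C N (d₂ / t)^(3/2)`.
With `mᵢ = 1 / (1 + |xᵢ| / dᵢ)` these bounds say `V² ≤ C m₁²`, `V² ≤ C m₂³` and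
`V² ≤ C m₃² m₁ m₂`; their product with exponents `45/176`, `30/176`, `90/176` is
`V^(15/8) ≤ C (m₁ m₂ m₃)^(45/44)`, so the maximal function `U` of `1_A` is bounded and
`∫ U^(15/8) ≤ C(N) d₁ d₂ d₃`. By the layer cake formula `S*f ≤ ∫_0^∞ U_t dt`, `U_t` being the
maximal function of `1_{f > t}`, and `(∫_0^∞ U_t dt)² ≤ C ∫_0^∞ t U_t^(15/8) dt` pointwise. A bounded
convex set fills a fixed proportion of a box, and the indicator function of a union of convex sets
is a combination of those of their intersections.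
-/

set_option autoImplicit false

open MeasureTheory Metric Filter Topology Set
open scoped ENNReal NNReal RealInnerProductSpace

namespace Pool.Agent.Results.MP_ee701d_an.QuasiConcaveSpace

/-- three dimensional space -/
abbrev E := EuclideanSpace ℝ (Fin 3)

/-- the ball partial sum `S_R f(x)` of the function `f` with Fourier transform `G` -/
noncomputable def S (G : E → ℂ) (R : ℝ) (x : E) : ℂ :=
  ∫ ξ in closedBall (0 : E) R, Complex.exp (2 * Real.pi * Complex.I * ((⟪x, ξ⟫ : ℝ) : ℂ)) * G ξ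

/-- the maximal function `S*f(x)`, the supremum of `|S_R f(x)|` over all `R > 0` -/
noncomputable def SStar (G : E → ℂ) (x : E) : ℝ≥0∞ := ⨆ (R : ℝ) (_ : 0 < R), ‖S G R x‖ₑ

/-- `f` and `G` are in `L²(ℝ³)` and `G` is the Fourier transform of `f`: the partial Fourier
integrals of `G` converge to `f` in `L²` -/
def IsFourierPair (f G : E → ℂ) : Prop :=
  MemLp f 2 volume ∧ MemLp G 2 volume ∧
    Tendsto (fun R : ℝ => ∫⁻ x, ‖S G R x - f x‖ₑ ^ 2) atTop (𝓝 0)

/-- `T` is a union of `N` pairwise disjoint (possibly empty) intervals -/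
def IntervalUnion (N : ℕ) (T : Set ℝ) : Prop :=
  ∃ I : Fin N → Set ℝ, (∀ i, (I i).OrdConnected) ∧ Pairwise (Function.onFun Disjoint I) ∧
    T = ⋃ i, I i

/-- every line meets `A` in at most `N` intervals -/
def LineSimple (N : ℕ) (A : Set E) : Prop :=
  ∀ p v : E, v ≠ 0 → IntervalUnion N {s : ℝ | p + s • v ∈ A}

/-- `A` lies in the box with centre `c` and half sides `d₁`, `d₂`, `d₃` along `b 0`, `b 1`, `b 2` -/
def InBox (b : OrthonormalBasis (Fin 3) ℝ E) (c : E) (d₁ d₂ d₃ : ℝ) (A : Set E) : Prop :=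
  ∀ y ∈ A, |⟪b 0, y - c⟫| ≤ d₁ ∧ |⟪b 1, y - c⟫| ≤ d₂ ∧ |⟪b 2, y - c⟫| ≤ d₃

/-- `A` lies in a box of volume at most `a` -/
def InBoxOfVolume (a : ℝ≥0∞) (A : Set E) : Prop :=
  ∃ (b : OrthonormalBasis (Fin 3) ℝ E) (c : E) (d₁ d₂ d₃ : ℝ), 0 < d₁ ∧ d₁ ≤ d₂ ∧ d₂ ≤ d₃ ∧
    InBox b c d₁ d₂ d₃ A ∧ ENNReal.ofReal (8 * d₁ * d₂ * d₃) ≤ a

/-- the indicator function -/
noncomputable def ind (A : Set E) : E → ℝ := A.indicator 1

/-- almost everywhere, `1_K` is a combination, with coefficients in `[-1, 1]`, of at most `N`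
indicator functions of measurable sets which meet every line in at most `N` intervals and lie in
boxes of volume at most `N |K|` -/
def Tame (N : ℕ) (K : Set E) : Prop :=
  ∃ m ≤ N, ∃ (A : Fin m → Set E) (ε : Fin m → ℝ),
    (∀ i, |ε i| ≤ 1 ∧ MeasurableSet (A i) ∧ LineSimple N (A i) ∧
      InBoxOfVolume (N * volume K) (A i)) ∧
    ∀ᵐ y, ind K y = ∑ i, ε i * ind (A i) y

/-- up to a null set, `K` is a union of at most `N` bounded convex sets -/
def ConvexUnion (N : ℕ) (K : Set E) : Prop :=
  ∃ C : Fin N → Set E, (∀ i, Convex ℝ (C i) ∧ Bornology.IsBounded (C i)) ∧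
    K =ᵐ[volume] ⋃ i, C i

/-- the superlevel sets `{Re (θ f) > t}`, `θ = 1, i, -1, -i`, `t > 0`, are unions of at most `N`
bounded convex sets, or tame -/
def Levels (N : ℕ) (f : E → ℂ) : Prop :=
  ∀ (k : ℕ) (t : ℝ), 0 < t → ConvexUnion N {y | t < (Complex.I ^ k * f y).re} ∨
    Tame N {y | t < (Complex.I ^ k * f y).re}

theorem result (N : ℕ) :
    ∃ C : ℝ≥0, ∀ f G : E → ℂ, IsFourierPair f G → Levels N f →
      ∫⁻ x, SStar G x ^ 2 ≤ C * ∫⁻ x, ‖f x‖ₑ ^ 2 := by
  have hC : 16 * Pool.Agent.Helper854_Q3.kC (1728 + 2 ^ N) ≠ ⊤ :=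
    ENNReal.mul_ne_top (by norm_num) (Pool.Agent.Helper854_Q3.kC_ne_top _)
  refine ⟨(16 * Pool.Agent.Helper854_Q3.kC (1728 + 2 ^ N)).toNNReal, fun f G hfG hf => ?_⟩
  have hf' : Pool.Agent.Helper854_Q3.NiceLv (1728 + 2 ^ N) f := by
    intro k t ht
    rcases hf k t ht with h | h
    · exact Pool.Agent.Helper854_Q3.cu_nice h
    · exact Pool.Agent.Helper854_Q3.Nice.mono (Nat.lt_two_pow_self.le.trans (Nat.le_add_left _ _)) h
  rw [ENNReal.coe_toNNReal hC]
  exact Pool.Agent.Helper854_Q3.pair_main hfG.1 hfG.2.1 hfG.2.2 hf'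

end Pool.Agent.Results.MP_ee701d_an.QuasiConcaveSpace
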