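import Mathlib
import Pool.Agent.Helper854_SP.Glob

/-!
# The maximal ball partial sum operator for thin sets of frequency radii and of radii

Let `f ∈ L²(ℝⁿ)`, `n ≥ 1`, let `G` be its Fourier transform, let `A ⊆ ℝ` be a measurable set such
that `G(ξ) = 0` for almost every `ξ` with `|ξ| ∉ A`, and let `E ⊆ ℝ` be any set of radii. Cut the
dyadic block `[2^k, 2^(k+1))` into cells of `A`-measure `1 / ρ` and let `N_k` be the number of the
cells which meet `E`. Then, with a constant `C = C(n)`,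
`∫_{B(x₀, ρ)} sup_{R ∈ E} |S_R f|² ≤ C ∑_k (1 + log N_k)² ∫_{2^k ≤ |ξ| < 2^(k+1)} |G|²`.
If the cells of `A`-measure `1` are used, the same bound holds for the integral over all of `ℝⁿ` with
the weight `(1 + log (1 + |x|))^(-4)`, and if the right hand side is finite then `S_R f → f` almost
everywhere as `R → ∞` in `E`. For example, if `|A ∩ [2^k, 2^(k+1))| ≤ a` for all `k`, then all radii
are allowed and nothing but the factor `(1 + log (1 + ρ a))²` is lost.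

Proof: the local `L²` estimate `∫_{B(x₀, ρ)} |S_s f - S_r f|² ≤ C ρ |A ∩ [r, s)| ∫_{r ≤ |ξ| < s} |G|²`,
a chaining argument in each block along the quantiles of `A`, the comparison of the partial sums at
the radii `2^k` with averages over balls, and the Hardy-Littlewood maximal theorem.
-/

set_option autoImplicit false

open MeasureTheory Metric Filter Topology Set
open scoped ENNReal NNReal RealInnerProductSpace

namespace Pool.Agent.Results.MP_ee701d_an.ThinRadii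

/-- Euclidean space -/
abbrev E (n : ℕ) := EuclideanSpace ℝ (Fin n)

/-- the ball partial sum `S_R f(x)` of the function `f` with Fourier transform `G` -/
noncomputable def S {n : ℕ} (G : E n → ℂ) (R : ℝ) (x : E n) : ℂ :=
  ∫ ξ in closedBall (0 : E n) R, Complex.exp (2 * Real.pi * Complex.I * ((⟪x, ξ⟫ : ℝ) : ℂ)) * G ξ

/-- the dyadic block `[2^k, 2^(k+1))` -/
def block (k : ℤ) : Set ℝ := Ico ((2 : ℝ) ^ k) ((2 : ℝ) ^ (k + 1))

/-- the number `N_k`: cut the block `[2^k, 2^(k+1))` into cells of `A`-measure `1 / ρ`, the radius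
`R` being in the cell with number `⌊ρ |A ∩ [2^k, R)|⌋`, and count the cells which meet `T` -/
noncomputable def cellCount (A T : Set ℝ) (ρ : ℝ) (k : ℤ) : ℕ :=
  ((fun R : ℝ => ⌊ρ * (volume (A ∩ Ico ((2 : ℝ) ^ k) R)).toReal⌋₊) '' (T ∩ block k)).ncard

/-- `(1 + log N_k)²` times the energy of `G` in the block `k` -/
noncomputable def term {n : ℕ} (G : E n → ℂ) (A T : Set ℝ) (ρ : ℝ) (k : ℤ) : ℝ≥0∞ :=
  ENNReal.ofReal ((1 + Real.log (cellCount A T ρ k)) ^ 2) *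
    ∫⁻ ξ in {ξ : E n | ‖ξ‖ ∈ block k}, ‖G ξ‖ₑ ^ 2

theorem result {n : ℕ} (hn : 1 ≤ n) :
    ∃ C : ℝ≥0, ∀ (G : E n → ℂ) (A T : Set ℝ), MemLp G 2 volume → MeasurableSet A →
      (∀ᵐ ξ : E n, ‖ξ‖ ∉ A → G ξ = 0) →
      (∀ (x₀ : E n) (ρ : ℝ), 0 < ρ →
        ∫⁻ x in closedBall x₀ ρ, ⨆ R ∈ T, ‖S G R x‖ₑ ^ 2 ≤ C * ∑' k : ℤ, term G A T ρ k) ∧
      (∫⁻ x : E n, (⨆ R ∈ T, ‖S G R x‖ₑ ^ 2) *
          ENNReal.ofReal (1 / (1 + Real.log (1 + ‖x‖)) ^ 4) ≤ C * ∑' k : ℤ, term G A T 1 k) ∧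
      (∀ a : ℝ, 0 ≤ a → (∀ k : ℤ, volume (A ∩ block k) ≤ ENNReal.ofReal a) →
        ∀ (x₀ : E n) (ρ : ℝ), 0 < ρ →
          ∫⁻ x in closedBall x₀ ρ, ⨆ R : ℝ, ‖S G R x‖ₑ ^ 2 ≤
            C * (ENNReal.ofReal ((1 + Real.log (1 + ρ * a)) ^ 2) * ∫⁻ ξ, ‖G ξ‖ₑ ^ 2)) ∧
      (∃ f : E n → ℂ, MemLp f 2 volume ∧
        Tendsto (fun R : ℝ => ∫⁻ x, ‖S G R x - f x‖ₑ ^ 2) atTop (𝓝 0) ∧
        (∑' k : ℕ, term G A T 1 (k : ℤ) < ⊤ →
          ∀ᵐ x : E n, Tendsto (fun R : ℝ => S G R x) (atTop ⊓ 𝓟 T) (𝓝 (f x)))) := by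
  obtain ⟨m, rfl⟩ : ∃ m, n = m + 1 := ⟨n - 1, by omega⟩
  have hSps : ∀ (G : E (m + 1) → ℂ) (R : ℝ) (x : E (m + 1)),
      S G R x = Pool.Agent.Helper93.Sph.ps G R x := fun G R x => rfl
  have hterm : ∀ (G : E (m + 1) → ℂ) (A T : Set ℝ) (ρ : ℝ) (k : ℤ), term G A T ρ k =
      ENNReal.ofReal ((1 + Real.log (Pool.Agent.Helper854_SP.Nk A T ρ k)) ^ 2) *
        Pool.Agent.Helper854_SP.lam G (Ico ((2 : ℝ) ^ k) ((2 : ℝ) ^ (k + 1))) := by
    intro G A T ρ k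
    rw [Pool.Agent.Helper854_SP.lam_apply G measurableSet_Ico]
    rfl
  set C0 : ℝ≥0∞ := (1 + Pool.Agent.Helper854_SP.cW) * Pool.Agent.Helper854_SP.cM m with hC0
  have hC0t : C0 ≠ ⊤ := ENNReal.mul_ne_top
    (ENNReal.add_ne_top.2 ⟨ENNReal.one_ne_top, Pool.Agent.Helper854_SP.cW_ne_top⟩)
    (Pool.Agent.Helper854_SP.cM_ne_top m)
  have hM : Pool.Agent.Helper854_SP.cM m ≤ C0 := by
    rw [hC0, add_mul, one_mul]; exact le_self_add
  have hW : Pool.Agent.Helper854_SP.cW * Pool.Agent.Helper854_SP.cM m ≤ C0 := by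
    rw [hC0, add_mul, one_mul]; exact le_add_self
  refine ⟨C0.toNNReal, fun G A T hG hA hs => ?_⟩
  rw [ENNReal.coe_toNNReal hC0t]
  simp only [hSps, hterm]
  obtain ⟨f, hf, hfl⟩ := Pool.Agent.Helper854_SP.exists_lim hG
  refine ⟨fun x₀ ρ hρ => ?_, ?_, fun a ha hAa x₀ ρ hρ => ?_, f, hf, ?_, fun hfin => ?_⟩
  · exact (Pool.Agent.Helper854_SP.main_max hA hG hs T x₀ hρ).trans (mul_le_mul_left hM _)
  · exact (Pool.Agent.Helper854_SP.glob_max hA hG hs T).trans (mul_le_mul_left hW _)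
  · exact (Pool.Agent.Helper854_SP.thin_max hA hG hs ha hAa x₀ hρ).trans (mul_le_mul_left hM _)
  · have h1 : Tendsto (fun R : ℝ => 2 * Pool.Agent.Helper854_SP.lam G (Ici R)) atTop
        (𝓝 (2 * 0)) :=
      ENNReal.Tendsto.const_mul (Pool.Agent.Helper854_SP.lam_tendsto hG) (Or.inr (by simp))
    rw [mul_zero] at h1
    refine tendsto_of_tendsto_of_tendsto_of_le_of_le' tendsto_const_nhds h1
      (Eventually.of_forall fun _ => zero_le) ?_
    filter_upwards [eventually_ge_atTop (0 : ℝ)] with R hR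
    exact hfl R hR
  · exact Pool.Agent.Helper854_SP.main_conv hA hG hs T hfin.ne hf hfl

end Pool.Agent.Results.MP_ee701d_an.ThinRadii
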